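import Pool.Agent.Helper10.AB.GoalsEMB

/-!
# Project AB (MP_1ef41b_an), packet 5763: MOD, the model is the isotopy
-/

open Set Filter Topology
open scoped ContDiff

noncomputable section

namespace Pool.Agent.Helper7.AB

open Pool.Agent.Helper24.AB Pool.Agent.Helper10.AB

theorem cc_le {x : ℝ} (h : x ≤ 0) : cc x = 1 := by
  unfold cc th; rw [Real.smoothTransition.zero_of_nonpos h]; simp
theorem ss_le {x : ℝ} (h : x ≤ 0) : ss x = 0 := by
  unfold ss th; rw [Real.smoothTransition.zero_of_nonpos h]; simp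
theorem dd_le {x : ℝ} (h : x ≤ 0) : dd x = 0 := by
  unfold dd th; rw [Real.smoothTransition.zero_of_nonpos h]; simp
theorem cc_ge {x : ℝ} (h : 1 ≤ x) : cc x = 0 := by
  unfold cc th; rw [Real.smoothTransition.one_of_one_le h]; simp
theorem ss_ge {x : ℝ} (h : 1 ≤ x) : ss x = 1 := by
  unfold ss th; rw [Real.smoothTransition.one_of_one_le h]; simp
theorem dd_ge {x : ℝ} (h : 1 ≤ x) : dd x = 0 := by
  unfold dd th; rw [Real.smoothTransition.one_of_one_le h]; simp

theorem chi_low {t : ℝ} (h : t ≤ -(1 / 2)) : chi t = 0 := by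
  have := Real.pi_pos
  unfold chi
  rw [Real.smoothTransition.zero_of_nonpos (by linarith),
    Real.smoothTransition.zero_of_nonpos (by linarith), sub_zero]

theorem chi_high {t : ℝ} (h : 2 * Real.pi + 1 / 2 ≤ t) : chi t = 0 := by
  have := Real.pi_pos
  unfold chi
  rw [Real.smoothTransition.one_of_one_le (by linarith),
    Real.smoothTransition.one_of_one_le (by linarith), sub_self]

theorem chi_sum {t : ℝ} (h0 : 0 ≤ t) (h1 : t ≤ 2 * Real.pi) :
    chi (t - 2 * Real.pi) + chi t + chi (t + 2 * Real.pi) = 1 := by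
  have h3 := Real.pi_gt_three
  unfold chi
  have e1 : t - 2 * Real.pi + 1 / 2 = t + 1 / 2 - 2 * Real.pi := by ring
  have e2 : t + 2 * Real.pi + 1 / 2 - 2 * Real.pi = t + 1 / 2 := by ring
  rw [e1, e2, Real.smoothTransition.zero_of_nonpos (x := t + 1 / 2 - 2 * Real.pi - 2 * Real.pi)
    (by linarith), Real.smoothTransition.one_of_one_le (x := t + 2 * Real.pi + 1 / 2) (by linarith)]
  ring

/-! ### low and high parameter values -/

/-- general coefficient sums. -/
def GS (j : Fin 4) (t : ℝ) (f : (Fin 3 → ℤ) → ℂ) : ℂ :=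
  ∑ i : Fin 14, if Helper10.AB.cmp i = j then (coef i t : ℂ) * f (frq i) else 0

theorem GS_low {x : ℝ} (h : x ≤ 1) (f : (Fin 3 → ℤ) → ℂ) :
    GS 0 x f = f ![1, 0, 0] ∧ GS 1 x f = f ![0, 1, 0] ∧ GS 2 x f = f ![-1, -1, 1] := by
  have a1 := cc_le (x := x - 1) (by linarith)
  have a2 := ss_le (x := x - 1) (by linarith)
  have a3 := dd_le (x := x - 1) (by linarith)
  have b1 := cc_le (x := x - 4) (by linarith)
  have b2 := ss_le (x := x - 4) (by linarith)
  have b3 := dd_le (x := x - 4) (by linarith)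
  refine ⟨?_, ?_, ?_⟩ <;>
    simp [GS, Fin.sum_univ_succ, Helper10.AB.cmp, coef, frq, a1, a2, a3, b1, b2, b3]

theorem GS_high {x : ℝ} (h : 5 ≤ x) (f : (Fin 3 → ℤ) → ℂ) :
    GS 0 x f = f ![1, -1, 0] ∧ GS 1 x f = f ![-1, 2, 0] ∧ GS 2 x f = f ![0, -1, 1] := by
  have a1 := cc_ge (x := x - 1) (by linarith)
  have a2 := ss_ge (x := x - 1) (by linarith)
  have a3 := dd_ge (x := x - 1) (by linarith)
  have b1 := cc_ge (x := x - 4) (by linarith)
  have b2 := ss_ge (x := x - 4) (by linarith)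
  have b3 := dd_ge (x := x - 4) (by linarith)
  refine ⟨?_, ?_, ?_⟩ <;>
    simp [GS, Fin.sum_univ_succ, Helper10.AB.cmp, coef, frq, a1, a2, a3, b1, b2, b3]

theorem F0_eq (j : Fin 4) (P : V4) (t : ℝ) : F0 j P t = GS j t (fun J => mon J P) := rfl

theorem D0_eq (j : Fin 4) (P : V4) (t : ℝ) (v : V4) :
    D0 j P t v = GS j t (fun J => mon J P * lJ J v) := by
  unfold D0 GS
  refine Finset.sum_congr rfl fun i _ => ?_
  split_ifs
  · rw [mul_assoc]
  · rfl

theorem mon_g0 (P : V4) : mon ![1, -1, 0] (gE P) = mon ![1, 0, 0] P := by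
  simp [mon, gE]
  congr 1
  ring

theorem mon_g1 (P : V4) : mon ![-1, 2, 0] (gE P) = mon ![0, 1, 0] P := by
  simp [mon, gE]
  congr 1
  ring

theorem mon_g2 (P : V4) : mon ![0, -1, 1] (gE P) = mon ![-1, -1, 1] P := by
  simp [mon, gE]
  congr 1
  ring

theorem lJ_apply (J : Fin 3 → ℤ) (v : V4) :
    lJ J v = (J 0 : ℂ) * v 0 + (J 1 : ℂ) * v 1 + (J 2 : ℂ) * v 2 := by
  simp [lJ]

theorem gL_apply (v : V4) : gL v = ![2 * v 0 + v 1, v 0 + v 1, v 2, v 3] := rfl

theorem lJ_g0 (v : V4) : lJ ![1, -1, 0] (gL v) = lJ ![1, 0, 0] v := by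
  rw [lJ_apply, lJ_apply, gL_apply]
  simp
  ring

theorem lJ_g1 (v : V4) : lJ ![-1, 2, 0] (gL v) = lJ ![0, 1, 0] v := by
  rw [lJ_apply, lJ_apply, gL_apply]
  simp
  ring

theorem lJ_g2 (v : V4) : lJ ![0, -1, 1] (gL v) = lJ ![-1, -1, 1] v := by
  rw [lJ_apply, lJ_apply, gL_apply]
  simp
  ring

theorem three {j : Fin 4} (hj : j ≠ 3) : j = 0 ∨ j = 1 ∨ j = 2 := by
  fin_cases j <;> simp_all

/-- KEY. -/
theorem key {x : ℝ} (h1 : -(1 / 2) ≤ x) (h2 : x ≤ 1 / 2) {j : Fin 4} (hj : j ≠ 3) (P : V4) :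
    F0 j (gE P) (x + 2 * Real.pi) = F0 j P x := by
  have h3 := Real.pi_gt_three
  obtain ⟨l0, l1, l2⟩ := GS_low (x := x) (by linarith) (fun J => mon J P)
  obtain ⟨g0, g1, g2⟩ := GS_high (x := x + 2 * Real.pi) (by linarith) (fun J => mon J (gE P))
  rw [F0_eq, F0_eq]
  rcases three hj with h | h | h
  · rw [h, l0, g0, mon_g0]
  · rw [h, l1, g1, mon_g1]
  · rw [h, l2, g2, mon_g2]

theorem key' {x : ℝ} (h1 : -(1 / 2) ≤ x) (h2 : x ≤ 1 / 2) {j : Fin 4} (hj : j ≠ 3) (P v : V4) :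
    D0 j (gE P) (x + 2 * Real.pi) (gL v) = D0 j P x v := by
  have h3 := Real.pi_gt_three
  obtain ⟨l0, l1, l2⟩ := GS_low (x := x) (by linarith) (fun J => mon J P * lJ J v)
  obtain ⟨g0, g1, g2⟩ := GS_high (x := x + 2 * Real.pi) (by linarith)
    (fun J => mon J (gE P) * lJ J (gL v))
  rw [D0_eq, D0_eq]
  rcases three hj with h | h | h
  · rw [h, l0, g0, mon_g0, lJ_g0]
  · rw [h, l1, g1, mon_g1, lJ_g1]
  · rw [h, l2, g2, mon_g2, lJ_g2]

/-! ### The coefficient functions -/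

theorem chi_smooth : ContDiff ℝ 1 chi := by
  unfold chi
  exact (Real.smoothTransition.contDiff.comp (by fun_prop)).sub
    (Real.smoothTransition.contDiff.comp (by fun_prop))

theorem th_smooth : ContDiff ℝ 1 th := by
  unfold th
  exact contDiff_const.mul Real.smoothTransition.contDiff

theorem cc_smooth : ContDiff ℝ 1 cc := by
  unfold cc
  exact (Real.contDiff_cos.comp th_smooth).pow 2

theorem ss_smooth : ContDiff ℝ 1 ss := by
  unfold ss
  exact (Real.contDiff_sin.comp th_smooth).pow 2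

theorem dd_smooth : ContDiff ℝ 1 dd := by
  unfold dd
  exact (Real.contDiff_sin.comp th_smooth).mul (Real.contDiff_cos.comp th_smooth)

theorem coef_smooth (i : Fin 14) : ContDiff ℝ 1 (coef i) := by
  have c1 : ContDiff ℝ 1 (fun t => cc (t - 1)) := cc_smooth.comp (by fun_prop)
  have c4 : ContDiff ℝ 1 (fun t => cc (t - 4)) := cc_smooth.comp (by fun_prop)
  have s1 : ContDiff ℝ 1 (fun t => ss (t - 1)) := ss_smooth.comp (by fun_prop)
  have s4 : ContDiff ℝ 1 (fun t => ss (t - 4)) := ss_smooth.comp (by fun_prop)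
  have d1 : ContDiff ℝ 1 (fun t => dd (t - 1)) := dd_smooth.comp (by fun_prop)
  have d4 : ContDiff ℝ 1 (fun t => dd (t - 4)) := dd_smooth.comp (by fun_prop)
  fin_cases i
  · exact d1
  · exact d1.neg
  · exact c1
  · exact s1
  · exact d4
  · exact d4.neg
  · exact c4
  · exact s4
  · exact c1
  · exact s1.sub s4
  · exact d1
  · exact d4.sub d1
  · exact d4.neg
  · exact s4

theorem bb_zero {t : ℝ} (h : t ≤ -(1 / 2) ∨ 2 * Real.pi + 1 / 2 ≤ t) (i : Fin 14) : bb i t = 0 := by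
  unfold bb
  rcases h with h | h
  · rw [chi_low h, zero_mul]
  · rw [chi_high h, zero_mul]

theorem bb_facts (i : Fin 14) : ContDiff ℝ 1 (bb i) ∧ HasCompactSupport (bb i) := by
  refine ⟨chi_smooth.mul (coef_smooth i), ?_⟩
  refine HasCompactSupport.intro (isCompact_Icc (a := (-(1 / 2) : ℝ)) (b := 2 * Real.pi + 1 / 2))
    fun t ht => bb_zero ?_ i
  simp only [mem_Icc, not_and_or, not_le] at ht
  exact ht.imp le_of_lt le_of_lt

theorem dbb_zero {t : ℝ} (h : t < -(1 / 2) ∨ 2 * Real.pi + 1 / 2 < t) (i : Fin 14) :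
    deriv (bb i) t = 0 := by
  have : bb i =ᶠ[𝓝 t] fun _ => 0 := by
    rcases h with h | h
    · filter_upwards [eventually_lt_nhds h] with s hs using bb_zero (Or.inl hs.le) i
    · filter_upwards [eventually_gt_nhds h] with s hs using bb_zero (Or.inr hs.le) i
  rw [this.deriv_eq]
  simp

/-! ### The series -/

theorem im_gk (h : S_ACT1) (k : ℤ) (P : V4) :
    (-(Complex.I * ((gE ^ k) P) 3)).re = (P 3).im + 2 * Real.pi * k := by
  rw [h.1 k P]
  simp only [if_true, h.2.2.1]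
  simp

theorem out_k {t : ℝ} (h0 : 0 ≤ t) (h1 : t ≤ 2 * Real.pi) {k : ℤ}
    (hk : k ∉ ({-1, 0, 1} : Finset ℤ)) :
    t + 2 * Real.pi * k < -(1 / 2) ∨ 2 * Real.pi + 1 / 2 < t + 2 * Real.pi * k := by
  have h3 := Real.pi_gt_three
  simp only [Finset.mem_insert, Finset.mem_singleton, not_or] at hk
  rcases lt_or_ge k 0 with h | h
  · left
    have h2 : k ≤ -2 := by omega
    have h2' : (k : ℝ) ≤ -2 := by exact_mod_cast h2
    nlinarith
  · right
    have h2 : 2 ≤ k := by omega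
    have h2' : (2 : ℝ) ≤ k := by exact_mod_cast h2
    nlinarith

theorem TS_eq (h : S_ACT1) {P : V4} (h0 : 0 ≤ (P 3).im) (h1 : (P 3).im ≤ 2 * Real.pi)
    (i : Fin 14) : TS (up (bb i)) (frq i) P =
      ∑ k ∈ ({-1, 0, 1} : Finset ℤ),
        (bb i ((P 3).im + 2 * Real.pi * k) : ℂ) * mon (frq i) ((gE ^ k) P) := by
  unfold TS
  have e : ∀ k : ℤ, hC (up (bb i)) (frq i) ((gE ^ k) P) =
      (bb i ((P 3).im + 2 * Real.pi * k) : ℂ) * mon (frq i) ((gE ^ k) P) := by
    intro k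
    unfold hC up
    rw [im_gk h]
  simp_rw [e]
  refine tsum_eq_sum fun k hk => ?_
  have := out_k h0 h1 hk
  rw [bb_zero (this.imp le_of_lt le_of_lt)]
  simp

theorem TD_eq (h : S_ACT1) {P : V4} (h0 : 0 ≤ (P 3).im) (h1 : (P 3).im ≤ 2 * Real.pi)
    (i : Fin 14) {v : V4} (hv : v 3 = 0) : TD (up (bb i)) (up (deriv (bb i))) (frq i) P v =
      ∑ k ∈ ({-1, 0, 1} : Finset ℤ),
        (bb i ((P 3).im + 2 * Real.pi * k) : ℂ) * (mon (frq i) ((gE ^ k) P) *
          lJ (frq i) (gk k v)) := by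
  have e1 : TD (up (bb i)) (up (deriv (bb i))) (frq i) P = ∑ k ∈ ({-1, 0, 1} : Finset ℤ),
      (hD (up (bb i)) (up (deriv (bb i))) (frq i) ((gE ^ k) P)).comp (gk k) := by
    unfold TD
    refine tsum_eq_sum fun k hk => ?_
    have := out_k h0 h1 hk
    unfold hD up
    rw [im_gk h, bb_zero (this.imp le_of_lt le_of_lt), dbb_zero this]
    refine ContinuousLinearMap.ext fun z => ?_
    simp
  rw [e1, _root_.sum_apply]
  refine Finset.sum_congr rfl fun k _ => ?_
  have hd : dw (gk k v) = 0 := by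
    have : gk k v 3 = 0 := by rw [h.2.2.1, hv]
    simpa [dw] using this
  unfold hD up
  rw [im_gk h]
  simp only [ContinuousLinearMap.comp_apply, _root_.add_apply,
    _root_.smul_apply, smul_eq_mul, hd, mul_zero, add_zero]
  ring

theorem GS_TS {f : Fin 14 → ℂ} (j : Fin 4) (t : ℝ) (g : ℤ → (Fin 3 → ℤ) → ℂ)
    (hf : ∀ i, f i = ∑ k ∈ ({-1, 0, 1} : Finset ℤ),
      (bb i (t + 2 * Real.pi * k) : ℂ) * g k (frq i)) :
    (∑ i : Fin 14, if Helper10.AB.cmp i = j then f i else 0) =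
      (chi (t - 2 * Real.pi) : ℂ) * GS j (t - 2 * Real.pi) (g (-1)) + (chi t : ℂ) * GS j t (g 0)
        + (chi (t + 2 * Real.pi) : ℂ) * GS j (t + 2 * Real.pi) (g 1) := by
  unfold GS
  rw [Finset.mul_sum, Finset.mul_sum, Finset.mul_sum, ← Finset.sum_add_distrib,
    ← Finset.sum_add_distrib]
  refine Finset.sum_congr rfl fun i _ => ?_
  split_ifs
  · rw [hf i, Finset.sum_insert (by decide), Finset.sum_insert (by decide),
      Finset.sum_singleton]
    have e1 : t + 2 * Real.pi * ((-1 : ℤ) : ℝ) = t - 2 * Real.pi := by push_cast; ring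
    have e2 : t + 2 * Real.pi * ((0 : ℤ) : ℝ) = t := by push_cast; ring
    have e3 : t + 2 * Real.pi * ((1 : ℤ) : ℝ) = t + 2 * Real.pi := by push_cast; ring
    rw [e1, e2, e3]
    unfold bb
    push_cast
    ring
  · simp

theorem mod : S_ACT1 → S_MOD := by
  intro h
  refine ⟨bb_facts, ?_, ?_⟩
  · intro P h0 h1 j hj
    set t := (P 3).im with ht
    rw [GS_TS j t (fun k J => mon J ((gE ^ k) P)) (fun i => TS_eq h h0 h1 i)]
    rw [← F0_eq, ← F0_eq, ← F0_eq]
    have k1 : (chi (t - 2 * Real.pi) : ℂ) * F0 j ((gE ^ (-1 : ℤ)) P) (t - 2 * Real.pi) =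
        chi (t - 2 * Real.pi) * F0 j P t := by
      rcases le_total (t - 2 * Real.pi) (-(1 / 2)) with hc | hc
      · rw [chi_low hc]; simp
      · have := key hc (by linarith) hj ((gE ^ (-1 : ℤ)) P)
        rw [← this]
        have e : gE ((gE ^ (-1 : ℤ)) P) = P := by
          rw [zpow_neg_one]; exact Equiv.apply_symm_apply gE P
        rw [e, sub_add_cancel]
    have k2 : (chi (t + 2 * Real.pi) : ℂ) * F0 j ((gE ^ (1 : ℤ)) P) (t + 2 * Real.pi) =
        chi (t + 2 * Real.pi) * F0 j P t := by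
      rcases le_total (1 / 2) t with hc | hc
      · rw [chi_high (by linarith)]; simp
      · rw [zpow_one, key (by linarith) hc hj P]
    have k0 : (gE ^ (0 : ℤ)) P = P := by rw [zpow_zero]; rfl
    rw [k1, k2, k0, ← add_mul, ← add_mul]
    have := chi_sum h0 h1
    have hc : (chi (t - 2 * Real.pi) : ℂ) + chi t + chi (t + 2 * Real.pi) = 1 := by
      exact_mod_cast this
    rw [hc, one_mul]
  · intro P h0 h1 v hv j hj
    set t := (P 3).im with ht
    rw [GS_TS j t (fun k J => mon J ((gE ^ k) P) * lJ J (gk k v)) (fun i => TD_eq h h0 h1 i hv)]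
    rw [← D0_eq, ← D0_eq, ← D0_eq]
    have k1 : (chi (t - 2 * Real.pi) : ℂ) *
        D0 j ((gE ^ (-1 : ℤ)) P) (t - 2 * Real.pi) (gk (-1) v) =
        chi (t - 2 * Real.pi) * D0 j P t v := by
      rcases le_total (t - 2 * Real.pi) (-(1 / 2)) with hc | hc
      · rw [chi_low hc]; simp
      · have := key' hc (by linarith) hj ((gE ^ (-1 : ℤ)) P) (gk (-1) v)
        rw [← this]
        have e : gE ((gE ^ (-1 : ℤ)) P) = P := by
          rw [zpow_neg_one]; exact Equiv.apply_symm_apply gE P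
        have e' : gL (gk (-1) v) = v := by
          unfold gk
          rw [zpow_neg_one]
          exact gL.apply_symm_apply v
        rw [e, e', sub_add_cancel]
    have k2 : (chi (t + 2 * Real.pi) : ℂ) *
        D0 j ((gE ^ (1 : ℤ)) P) (t + 2 * Real.pi) (gk 1 v) =
        chi (t + 2 * Real.pi) * D0 j P t v := by
      rcases le_total (1 / 2) t with hc | hc
      · rw [chi_high (by linarith)]; simp
      · have e' : gk 1 v = gL v := by
          unfold gk
          rw [zpow_one]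
          rfl
        rw [zpow_one, e', key' (by linarith) hc hj P v]
    have k0 : (gE ^ (0 : ℤ)) P = P := by rw [zpow_zero]; rfl
    have k0' : gk 0 v = v := by
      unfold gk
      rw [zpow_zero]
      rfl
    rw [k1, k2, k0, k0', ← add_mul, ← add_mul]
    have := chi_sum h0 h1
    have hc : (chi (t - 2 * Real.pi) : ℂ) + chi t + chi (t + 2 * Real.pi) = 1 := by
      exact_mod_cast this
    rw [hc, one_mul]

end Pool.Agent.Helper7.AB
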