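import Pool.Agent.Helper15.AB.GoalsT

/-!
# Project AB (MP_1ef41b_an), packet 5702: BND, the closure of the tube lies in `U_η`
-/

open MeasureTheory Set Filter Topology
open scoped ContDiff

noncomputable section

namespace Pool.Agent.Helper7.AB

open Pool.Agent.Helper24.AB Pool.Agent.Helper15.AB

theorem Atl_pos {a A : ℝ} {s : ℝ → ℝ} (h : IsProfile a A s) (x : ℝ) : 0 < Atl a A s x := by
  have ha := h.a_pos
  have hA := h.A_pos
  unfold Atl
  split_ifs with hx
  · have hx' : |x| < a := hx.trans (by linarith)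
    have h1 := abs_lt.1 hx'
    have hs := h.pos x ⟨h1.1, h1.2⟩
    have h2 : 0 < a ^ 2 - x ^ 2 := by nlinarith
    positivity
  · positivity

/-- `Atl (a²-σ²) ≤ 4A²`. -/
theorem Atl_mul_le {a A : ℝ} {s : ℝ → ℝ} (h : IsProfile a A s) {x : ℝ} (hx : |x| < a) :
    Atl a A s x * (a ^ 2 - x ^ 2) ≤ 4 * A ^ 2 := by
  have ha := h.a_pos
  have hA := h.A_pos
  have h1 := abs_lt.1 hx
  have h2 : 0 < a ^ 2 - x ^ 2 := by nlinarith
  have h3 : 4 * A ^ 2 / a ^ 2 * (a ^ 2 - x ^ 2) ≤ 4 * A ^ 2 := by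
    rw [div_mul_eq_mul_div, div_le_iff₀ (by positivity)]
    nlinarith [sq_nonneg x, sq_nonneg A, mul_nonneg (sq_nonneg A) (sq_nonneg x)]
  unfold Atl
  split_ifs with hc
  · rw [div_mul_cancel₀ _ h2.ne']
    have hle := h.le_edge x ⟨h1.1, h1.2⟩
    have hs := h.pos x ⟨h1.1, h1.2⟩
    calc s x ^ 2 ≤ (2 * A * Real.sqrt (a ^ 2 - x ^ 2) / a) ^ 2 :=
          pow_le_pow_left₀ hs.le hle 2
      _ = 4 * A ^ 2 / a ^ 2 * (a ^ 2 - x ^ 2) := by
          rw [div_pow, mul_pow, Real.sq_sqrt h2.le]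
          ring
      _ ≤ 4 * A ^ 2 := h3
  · exact h3

theorem bnd : S_BND := by
  intro η a A δ₀ ρ₀ s p B hs hp haη hAη
  have ha := hs.a_pos
  have ha2 := hs.a_le
  have hA := hs.A_pos
  have hδ : 0 ≤ δ₀ := by
    have := (hp.p3 0 (by simp [strip, ha])).1
    have h0 : 0 ≤ δ₀ * Real.exp (kap * (0 : ℂ).im) := (abs_nonneg _).trans this
    simpa using h0
  have hsub : Omt a A s p ⊆ {P : V4 | |Real.exp (-(kap * (P 3).im)) * xp P| ≤ 3 * A + δ₀ ∧
      |Real.exp (kap * (P 3).im) * xm P| ≤ A ∧ |x0 P| ≤ A ∧ |(P 3).re| ≤ a} := by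
    intro P hP
    obtain ⟨h1, h2⟩ := hP
    unfold rfun at h2
    have hAt := Atl_pos hs (P 3).re
    have g1 : 0 ≤ (ypf p P - A) ^ 2 / Atl a A s (P 3).re := by positivity
    have g2 : 0 ≤ (ymf P ^ 2 + x0 P ^ 2) / (4 * A ^ 2) := by positivity
    have g3 : 0 < a ^ 2 - (P 3).re ^ 2 := by linarith
    have g4 : |(P 3).re| < a := by
      have : (P 3).re ^ 2 < a ^ 2 := by linarith
      exact abs_lt_of_sq_lt_sq this ha.le
    have g5 : (ypf p P - A) ^ 2 ≤ 4 * A ^ 2 := by
      have : (ypf p P - A) ^ 2 / Atl a A s (P 3).re < a ^ 2 - (P 3).re ^ 2 := by linarith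
      rw [div_lt_iff₀ hAt] at this
      have h3 := Atl_mul_le hs g4
      nlinarith
    have g6 : ymf P ^ 2 + x0 P ^ 2 ≤ A ^ 2 := by
      have : (ymf P ^ 2 + x0 P ^ 2) / (4 * A ^ 2) < a ^ 2 - (P 3).re ^ 2 := by linarith
      rw [div_lt_iff₀ (by positivity)] at this
      have h4 : a ^ 2 - (P 3).re ^ 2 ≤ 1 / 4 := by nlinarith [sq_nonneg (P 3).re]
      nlinarith [sq_nonneg A]
    have g7 : |ypf p P| ≤ 3 * A := by
      have : |ypf p P - A| ≤ 2 * A :=
        abs_le_of_sq_le_sq (by nlinarith) (by linarith)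
      have := abs_le.1 this
      exact abs_le.2 ⟨by linarith, by linarith⟩
    have g8 : |Real.exp (-(kap * (P 3).im)) * p (P 3)| ≤ δ₀ := by
      have := (hp.p3 (P 3) h1).1
      rw [abs_mul, abs_of_pos (Real.exp_pos _), Real.exp_neg, inv_mul_le_iff₀ (Real.exp_pos _),
        mul_comm]
      exact this
    refine ⟨?_, ?_, ?_, g4.le⟩
    · have e : Real.exp (-(kap * (P 3).im)) * xp P
          = ypf p P - Real.exp (-(kap * (P 3).im)) * p (P 3) := by
        unfold ypf; ring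
      rw [e]
      exact (abs_sub _ _).trans (add_le_add g7 g8)
    · have : |ymf P| ≤ A := abs_le_of_sq_le_sq (by nlinarith [sq_nonneg (x0 P)]) hA.le
      exact this
    · exact abs_le_of_sq_le_sq (by nlinarith [sq_nonneg (ymf P)]) hA.le
  have hcl : IsClosed {P : V4 | |Real.exp (-(kap * (P 3).im)) * xp P| ≤ 3 * A + δ₀ ∧
      |Real.exp (kap * (P 3).im) * xm P| ≤ A ∧ |x0 P| ≤ A ∧ |(P 3).re| ≤ a} := by
    have c3 : Continuous fun P : V4 => (P 3).im := by fun_prop
    have c3r : Continuous fun P : V4 => (P 3).re := by fun_prop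
    have cxp : Continuous xp := by unfold xp; fun_prop
    have cxm : Continuous xm := by unfold xm; fun_prop
    have cx0 : Continuous x0 := by unfold x0; fun_prop
    refine IsClosed.inter ?_ (IsClosed.inter ?_ (IsClosed.inter ?_ ?_))
    · exact isClosed_le (f := fun P : V4 => |Real.exp (-(kap * (P 3).im)) * xp P|)
        (by fun_prop) continuous_const
    · exact isClosed_le (f := fun P : V4 => |Real.exp (kap * (P 3).im) * xm P|)
        (by fun_prop) continuous_const
    · exact isClosed_le (f := fun P : V4 => |x0 P|) (by fun_prop) continuous_const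
    · exact isClosed_le (f := fun P : V4 => |(P 3).re|) (by fun_prop) continuous_const
  refine (closure_minimal hsub hcl).trans ?_
  rintro P ⟨h1, h2, h3, h4⟩
  exact ⟨by linarith, by linarith, by linarith, by linarith⟩

end Pool.Agent.Helper7.AB
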