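import Pool.Agent.Helper24.AB.PP.Goals

/-!
# Project AB (MP_1ef41b_an), packet 5797: PROFx, the profile
-/

open MeasureTheory Set Filter Topology
open scoped ContDiff

noncomputable section

namespace Pool.Agent.Helper7.AB

open Pool.Agent.Helper24.AB

theorem kap_pos : 0 < kap := by
  unfold kap lam
  apply div_pos _ (by positivity)
  apply Real.log_pos
  have : (0:ℝ) ≤ Real.sqrt 5 := Real.sqrt_nonneg 5
  linarith

theorem log_lam_lt : Real.log lam < 964 / 1000 := by
  have h5 : Real.sqrt 5 < 22361 / 10000 := by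
    rw [Real.sqrt_lt' (by norm_num)]
    norm_num
  have hlam : 0 < lam := by
    unfold lam
    positivity
  rw [Real.log_lt_iff_lt_exp hlam]
  have h1 := Real.sum_le_exp_of_nonneg (x := 964 / 1000) (by norm_num) 7
  have h2 : lam < ∑ i ∈ Finset.range 7, (964 / 1000 : ℝ) ^ i / (i.factorial : ℝ) := by
    unfold lam
    simp only [Finset.sum_range_succ, Finset.sum_range_zero, Nat.factorial]
    norm_num
    linarith
  linarith

theorem kap_lt : kap < 1536 / 10000 := by
  have h := log_lam_lt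
  have hp := Real.pi_gt_d2
  unfold kap
  rw [div_lt_iff₀ (by positivity)]
  nlinarith

theorem kap_sq_lt : kap ^ 2 < 236 / 10000 := by
  have h0 := kap_pos
  have h1 := kap_lt
  nlinarith

/-- `S₀`. -/
def pS (A x : ℝ) : ℝ := 2 * A * Real.cos (kap * x) - A
/-- its derivative -/
def pS1 (A x : ℝ) : ℝ := -(2 * A * kap * Real.sin (kap * x))
/-- `s₂`. -/
def p2 (a A x : ℝ) : ℝ := 2 * A * Real.sqrt (a ^ 2 - x ^ 2) / a
/-- its derivative -/
def p21 (a A x : ℝ) : ℝ := -(2 * A / a * (x / Real.sqrt (a ^ 2 - x ^ 2)))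
/-- its second derivative -/
def p22 (a A x : ℝ) : ℝ :=
  -(2 * A / a * (a ^ 2 / ((a ^ 2 - x ^ 2) * Real.sqrt (a ^ 2 - x ^ 2))))

theorem pS_deriv (A x : ℝ) : HasDerivAt (pS A) (pS1 A x) x := by
  unfold pS pS1
  have h1 : HasDerivAt (fun y : ℝ => kap * y) kap x := by
    simpa using (hasDerivAt_id x).const_mul kap
  have := (((Real.hasDerivAt_cos (kap * x)).comp x h1).const_mul (2 * A)).sub_const A
  refine this.congr_deriv ?_
  ring

theorem pS1_deriv (A x : ℝ) : HasDerivAt (pS1 A) (-(kap ^ 2 * (pS A x + A))) x := by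
  unfold pS pS1
  have h1 : HasDerivAt (fun y : ℝ => kap * y) kap x := by
    simpa using (hasDerivAt_id x).const_mul kap
  have := (((Real.hasDerivAt_sin (kap * x)).comp x h1).const_mul (2 * A * kap)).neg
  refine this.congr_deriv ?_
  ring

theorem sq_deriv {a x : ℝ} (hx : 0 < a ^ 2 - x ^ 2) :
    HasDerivAt (fun y => Real.sqrt (a ^ 2 - y ^ 2)) (-(x / Real.sqrt (a ^ 2 - x ^ 2))) x := by
  have h1 : HasDerivAt (fun y : ℝ => a ^ 2 - y ^ 2) (-(2 * x)) x := by
    have := ((hasDerivAt_pow 2 x).const_sub (a ^ 2))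
    refine this.congr_deriv ?_
    norm_num
  have := h1.sqrt hx.ne'
  refine this.congr_deriv ?_
  have hs : Real.sqrt (a ^ 2 - x ^ 2) ≠ 0 := (Real.sqrt_pos.2 hx).ne'
  field_simp

theorem p2_deriv {a A x : ℝ} (hx : 0 < a ^ 2 - x ^ 2) :
    HasDerivAt (p2 a A) (p21 a A x) x := by
  unfold p2 p21
  have := ((sq_deriv hx).const_mul (2 * A)).div_const a
  refine this.congr_deriv ?_
  ring

theorem p21_deriv {a A x : ℝ} (hx : 0 < a ^ 2 - x ^ 2) :
    HasDerivAt (p21 a A) (p22 a A x) x := by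
  unfold p21 p22
  have hs : Real.sqrt (a ^ 2 - x ^ 2) ≠ 0 := (Real.sqrt_pos.2 hx).ne'
  have hsq : Real.sqrt (a ^ 2 - x ^ 2) ^ 2 = a ^ 2 - x ^ 2 := Real.sq_sqrt hx.le
  have := (((hasDerivAt_id x).fun_div (sq_deriv hx) hs).const_mul (2 * A / a)).neg
  refine this.congr_deriv ?_
  simp only [id]
  congr 2
  rw [div_eq_div_iff (by positivity) (by positivity), hsq]
  field_simp
  rw [hsq]
  ring

/-- The profile. -/
def pro (v : ℝ → ℝ) (a A x : ℝ) : ℝ := (pS A x + p2 a A x) / 2 - v (pS A x - p2 a A x) / 2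

/-- its derivative -/
def pro1 (v : ℝ → ℝ) (a A x : ℝ) : ℝ :=
  (pS1 A x + p21 a A x) / 2 - deriv v (pS A x - p2 a A x) * (pS1 A x - p21 a A x) / 2

theorem profx (h : S_VP) : S_PROFx := by
  intro a A ha ha2 hA
  obtain ⟨v, v1, -, v3, v4, v5, v6, v7, v8, v9, v10⟩ := h (A / 40) (by positivity)
  have hk0 := kap_pos
  have hk2 := kap_sq_lt
  have hvd : Differentiable ℝ v := v1.differentiable (by simp)
  have hv1d : Differentiable ℝ (deriv v) :=
    ((contDiff_infty_iff_deriv.1 v1).2).differentiable (by simp)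
  -- basic bounds
  have he : ∀ {x : ℝ}, |x| < a → 0 < a ^ 2 - x ^ 2 := by
    intro x hx
    have := abs_lt.1 hx
    nlinarith
  have hS0le : ∀ x, pS A x ≤ A := by
    intro x
    unfold pS
    nlinarith [Real.cos_le_one (kap * x)]
  have hS0ge : ∀ {x : ℝ}, |x| < a → 9941 / 10000 * A ≤ pS A x := by
    intro x hx
    unfold pS
    have h1 := Real.one_sub_sq_div_two_le_cos (x := kap * x)
    have hx2 : x ^ 2 ≤ 1 / 4 := by
      have := abs_lt.1 hx
      nlinarith
    have h2 : (kap * x) ^ 2 ≤ 59 / 10000 := by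
      rw [mul_pow]
      nlinarith [sq_nonneg kap, sq_nonneg x]
    nlinarith
  have hp2nn : ∀ x, 0 ≤ p2 a A x := by
    intro x; unfold p2; positivity
  -- bounds of p2
  have hp2sq : ∀ {x : ℝ}, |x| < a → p2 a A x ^ 2 = 4 * A ^ 2 * (a ^ 2 - x ^ 2) / a ^ 2 := by
    intro x hx
    unfold p2
    rw [div_pow, mul_pow, Real.sq_sqrt (he hx).le]
    ring
  have hp2_ge : ∀ {x c b : ℝ}, 0 ≤ c → |x| < a → |x| ≤ b * a → c ^ 2 ≤ 4 * (1 - b ^ 2) →
      c * A ≤ p2 a A x := by
    intro x c b hc hx hb hcb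
    refine le_of_sq_le_sq ?_ (hp2nn x)
    rw [hp2sq hx, mul_pow, le_div_iff₀ (by positivity)]
    have h1 : x ^ 2 ≤ b ^ 2 * a ^ 2 := by
      rw [← sq_abs x, ← mul_pow]
      exact pow_le_pow_left₀ (abs_nonneg x) hb 2
    have h2 : c ^ 2 * a ^ 2 ≤ 4 * (1 - b ^ 2) * a ^ 2 :=
      mul_le_mul_of_nonneg_right hcb (sq_nonneg a)
    have h3 : c ^ 2 * a ^ 2 ≤ 4 * (a ^ 2 - x ^ 2) := by nlinarith
    calc c ^ 2 * A ^ 2 * a ^ 2 = A ^ 2 * (c ^ 2 * a ^ 2) := by ring
      _ ≤ A ^ 2 * (4 * (a ^ 2 - x ^ 2)) := mul_le_mul_of_nonneg_left h3 (sq_nonneg A)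
      _ = _ := by ring
  have hp2_le : ∀ {x c b : ℝ}, 0 ≤ c → 0 ≤ b → |x| < a → b * a ≤ |x| → 4 * (1 - b ^ 2) ≤ c ^ 2 →
      p2 a A x ≤ c * A := by
    intro x c b hc hb0 hx hb hcb
    refine le_of_sq_le_sq ?_ (by positivity)
    rw [hp2sq hx, mul_pow, div_le_iff₀ (by positivity)]
    have h1 : b ^ 2 * a ^ 2 ≤ x ^ 2 := by
      rw [← sq_abs x, ← mul_pow]
      exact pow_le_pow_left₀ (by positivity) hb 2
    have h2 : 4 * (1 - b ^ 2) * a ^ 2 ≤ c ^ 2 * a ^ 2 :=
      mul_le_mul_of_nonneg_right hcb (sq_nonneg a)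
    have h3 : 4 * (a ^ 2 - x ^ 2) ≤ c ^ 2 * a ^ 2 := by nlinarith
    calc 4 * A ^ 2 * (a ^ 2 - x ^ 2) = A ^ 2 * (4 * (a ^ 2 - x ^ 2)) := by ring
      _ ≤ A ^ 2 * (c ^ 2 * a ^ 2) := mul_le_mul_of_nonneg_left h3 (sq_nonneg A)
      _ = _ := by ring
  -- mid and edge
  have hmid : ∀ x, |x| ≤ a / 2 → pro v a A x = pS A x := by
    intro x hx
    have h1 : 17 / 10 * A ≤ p2 a A x :=
      hp2_ge (b := 1 / 2) (by norm_num) (by linarith) (by linarith) (by norm_num)
    have h2 := hS0le x
    have h3 : v (pS A x - p2 a A x) = p2 a A x - pS A x := by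
      rw [v3 _ (by rw [abs_of_nonpos (by linarith)]; linarith), abs_of_nonpos (by linarith)]
      ring
    unfold pro
    rw [h3]; ring
  have hedge' : ∀ x, 19 / 20 * a ≤ |x| → |x| < a → p2 a A x ≤ 63 / 100 * A := by
    intro x hx hx'
    exact hp2_le (b := 19 / 20) (by norm_num) (by norm_num) hx' hx (by norm_num)
  have hedge : ∀ x, 19 / 20 * a ≤ |x| → |x| < a → pro v a A x = p2 a A x := by
    intro x hx hx'
    have h1 := hedge' x hx hx'
    have h2 := hS0ge hx'
    have h3 : v (pS A x - p2 a A x) = pS A x - p2 a A x := by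
      rw [v3 _ (by rw [abs_of_nonneg (by linarith)]; linarith), abs_of_nonneg (by linarith)]
    unfold pro
    rw [h3]; ring
  have hle1 : ∀ x, pro v a A x ≤ pS A x := by
    intro x
    have h1 := v6 (pS A x - p2 a A x)
    have h2 := neg_abs_le (pS A x - p2 a A x)
    unfold pro; linarith
  have hle2 : ∀ x, pro v a A x ≤ p2 a A x := by
    intro x
    have h1 := v6 (pS A x - p2 a A x)
    have h2 := le_abs_self (pS A x - p2 a A x)
    unfold pro; linarith
  -- a lower bound
  have hge : ∀ x, min (pS A x) (p2 a A x) - A / 80 ≤ pro v a A x := by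
    intro x
    have h1 := v7 (pS A x - p2 a A x)
    unfold pro
    rcases le_total (pS A x) (p2 a A x) with hc | hc
    · rw [min_eq_left hc]
      rw [abs_of_nonpos (by linarith)] at h1
      linarith
    · rw [min_eq_right hc]
      rw [abs_of_nonneg (by linarith)] at h1
      linarith
  have hgemid : ∀ x, |x| ≤ 19 / 20 * a → A / 2 ≤ pro v a A x := by
    intro x hx
    have h1 : 62 / 100 * A ≤ p2 a A x :=
      hp2_ge (b := 19 / 20) (by norm_num) (by linarith) hx (by norm_num)
    have h2 := hS0ge (x := x) (by linarith)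
    have h3 : 62 / 100 * A ≤ min (pS A x) (p2 a A x) := le_min (by linarith) h1
    linarith [hge x]
  have hp2pos : ∀ {x : ℝ}, |x| < a → 0 < p2 a A x := by
    intro x hx
    have := Real.sqrt_pos.2 (he hx)
    unfold p2; positivity
  have hpos : ∀ {x : ℝ}, |x| < a → 0 < pro v a A x := by
    intro x hx
    rcases le_total |x| (19 / 20 * a) with hc | hc
    · linarith [hgemid x hc]
    · rw [hedge x hc hx]; exact hp2pos hx
  have hI : ∀ {x : ℝ}, x ∈ Ioo (-a) a → |x| < a := fun {x} hx => abs_lt.2 ⟨hx.1, hx.2⟩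
  -- derivatives
  have hd1 : ∀ {x : ℝ}, |x| < a → HasDerivAt (pro v a A) (pro1 v a A x) x := by
    intro x hx
    have a1 := pS_deriv A x
    have a2 := p2_deriv (A := A) (he hx)
    have a3 := (hvd (pS A x - p2 a A x)).hasDerivAt.comp x (a1.sub a2)
    have := ((a1.add a2).div_const 2).sub (a3.div_const 2)
    exact this
  have hd2 : ∀ {x : ℝ}, |x| < a → HasDerivAt (pro1 v a A)
      ((-(kap ^ 2 * (pS A x + A)) + p22 a A x) / 2
        - (deriv (deriv v) (pS A x - p2 a A x) * (pS1 A x - p21 a A x) * (pS1 A x - p21 a A x)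
          + deriv v (pS A x - p2 a A x) * (-(kap ^ 2 * (pS A x + A)) - p22 a A x)) / 2) x := by
    intro x hx
    have a1 := pS_deriv A x
    have a2 := p2_deriv (A := A) (he hx)
    have b1 := pS1_deriv A x
    have b2 := p21_deriv (A := A) (he hx)
    have a3 := (hv1d (pS A x - p2 a A x)).hasDerivAt.comp x (a1.sub a2)
    have := ((b1.add b2).div_const 2).sub ((a3.mul (b1.sub b2)).div_const 2)
    exact this
  have hder : ∀ {x : ℝ}, |x| < a → deriv (pro v a A) x = pro1 v a A x := fun {x} hx =>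
    (hd1 hx).deriv
  have hder2 : ∀ {x : ℝ}, |x| < a → deriv (deriv (pro v a A)) x =
      ((-(kap ^ 2 * (pS A x + A)) + p22 a A x) / 2
        - (deriv (deriv v) (pS A x - p2 a A x) * (pS1 A x - p21 a A x) * (pS1 A x - p21 a A x)
          + deriv v (pS A x - p2 a A x) * (-(kap ^ 2 * (pS A x + A)) - p22 a A x)) / 2) := by
    intro x hx
    have hev : deriv (pro v a A) =ᶠ[𝓝 x] pro1 v a A := by
      have : ∀ᶠ y in 𝓝 x, |y| < a := continuous_abs.continuousAt.eventually_lt
        continuousAt_const hx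
      exact this.mono fun y hy => hder hy
    rw [hev.deriv_eq]
    exact (hd2 hx).deriv
  -- sign facts
  have hsin : ∀ {x : ℝ}, |x| < a → 0 ≤ x * Real.sin (kap * x) ∧
      |Real.sin (kap * x)| ≤ kap * |x| := by
    intro x hx
    have hk := kap_lt
    refine ⟨?_, ?_⟩
    · have hx' := abs_lt.1 hx
      rcases le_total 0 x with hc | hc
      · refine mul_nonneg hc (Real.sin_nonneg_of_nonneg_of_le_pi (by positivity) ?_)
        nlinarith [Real.pi_gt_three]
      · refine mul_nonneg_of_nonpos_of_nonpos hc (Real.sin_nonpos_of_nonpos_of_neg_pi_le ?_ ?_)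
        · nlinarith
        · nlinarith [Real.pi_gt_three]
    · have := Real.abs_sin_le_abs (x := kap * x)
      rwa [abs_mul, abs_of_pos hk0] at this
  have hp21 : ∀ {x : ℝ}, |x| < a → p21 a A x = -(p2 a A x * x / (a ^ 2 - x ^ 2)) := by
    intro x hx
    have h1 := he hx
    have hs : Real.sqrt (a ^ 2 - x ^ 2) ≠ 0 := (Real.sqrt_pos.2 h1).ne'
    have hsq : Real.sqrt (a ^ 2 - x ^ 2) ^ 2 = a ^ 2 - x ^ 2 := Real.sq_sqrt h1.le
    unfold p21 p2
    congr 1
    rw [div_mul_div_comm, div_mul_eq_mul_div, div_div, div_eq_div_iff (by positivity)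
      (by positivity)]
    have h2 : 2 * A * Real.sqrt (a ^ 2 - x ^ 2) * x * (a * Real.sqrt (a ^ 2 - x ^ 2)) =
        2 * A * x * a * Real.sqrt (a ^ 2 - x ^ 2) ^ 2 := by ring
    rw [h2, hsq]
    ring
  refine ⟨pro v a A, ?_⟩
  refine ⟨ha, ha2, hA, ?_, ?_, fun x hx => hpos (hI hx), ?_, ?_, ?_, hgemid, ?_, ?_, ?_⟩
  · -- smooth
    have c2 : ContDiffOn ℝ ∞ (p2 a A) (Ioo (-a) a) := by
      unfold p2
      refine ContDiffOn.div_const (contDiffOn_const.mul ?_) a
      exact ContDiffOn.sqrt (by fun_prop) fun x hx => (he (hI hx)).ne'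
    have c1 : ContDiffOn ℝ ∞ (pS A) (Ioo (-a) a) := by
      unfold pS
      refine ContDiff.contDiffOn ?_
      exact (contDiff_const.mul (Real.contDiff_cos.comp (by fun_prop))).sub contDiff_const
    unfold pro
    refine ((c1.add c2).div_const 2).sub (ContDiffOn.div_const ?_ 2)
    exact v1.comp_contDiffOn (c1.sub c2)
  · intro x
    unfold pro pS p2
    rw [mul_neg, Real.cos_neg, neg_sq]
  · intro x hx
    rw [hmid x hx]; rfl
  · intro x hx hx'
    rw [hedge x hx hx']; rfl
  · intro x hx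
    exact hle2 x
  · -- k1
    intro x hx
    have hx' := hI hx
    rw [hder2 hx']
    set y := pS A x - p2 a A x with hy
    have hv4 := abs_le.1 (v4 y)
    have hv5 := v5 y
    have hv8 := v8 y
    have h22 : p22 a A x ≤ -(kap ^ 2 * (p2 a A x + A)) := by
      have h1 := he hx'
      have hs := Real.sqrt_pos.2 h1
      have hsa : Real.sqrt (a ^ 2 - x ^ 2) ≤ a := by
        rw [Real.sqrt_le_left ha.le]
        nlinarith [sq_nonneg x]
      have h2 : 8 * A ≤ 2 * A / a * (a ^ 2 / ((a ^ 2 - x ^ 2) * Real.sqrt (a ^ 2 - x ^ 2))) := by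
        rw [div_mul_div_comm, le_div_iff₀ (by positivity)]
        have h3 : (a ^ 2 - x ^ 2) * Real.sqrt (a ^ 2 - x ^ 2) ≤ a ^ 2 * a :=
          mul_le_mul (by nlinarith [sq_nonneg x]) hsa hs.le (by positivity)
        have h4 : a * ((a ^ 2 - x ^ 2) * Real.sqrt (a ^ 2 - x ^ 2)) ≤ a * (a ^ 2 * a) :=
          mul_le_mul_of_nonneg_left h3 ha.le
        have h5 : a ^ 2 * (a * a) ≤ a ^ 2 * (1 / 4) :=
          mul_le_mul_of_nonneg_left (by nlinarith) (sq_nonneg a)
        have h6 : a * ((a ^ 2 - x ^ 2) * Real.sqrt (a ^ 2 - x ^ 2)) ≤ a ^ 2 / 4 := by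
          calc _ ≤ a * (a ^ 2 * a) := h4
            _ = a ^ 2 * (a * a) := by ring
            _ ≤ a ^ 2 * (1 / 4) := h5
            _ = a ^ 2 / 4 := by ring
        calc 8 * A * (a * ((a ^ 2 - x ^ 2) * Real.sqrt (a ^ 2 - x ^ 2)))
            ≤ 8 * A * (a ^ 2 / 4) := mul_le_mul_of_nonneg_left h6 (by positivity)
          _ = 2 * A * a ^ 2 := by ring
      have h7 : p2 a A x ≤ 2 * A := by
        have := hp2_le (x := x) (c := 2) (b := 0) (by norm_num) le_rfl hx'
          (by rw [zero_mul]; exact abs_nonneg x) (by norm_num)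
        exact this
      have h8 : kap ^ 2 * (p2 a A x + A) ≤ 236 / 10000 * (3 * A) :=
        mul_le_mul hk2.le (by linarith) (by linarith [hp2nn x]) (by norm_num)
      unfold p22
      linarith
    have h9 : 0 ≤ deriv (deriv v) y * (pS1 A x - p21 a A x) * (pS1 A x - p21 a A x) := by
      rw [mul_assoc]
      exact mul_nonneg hv5 (mul_self_nonneg _)
    have h10 : (1 + deriv v y) * p22 a A x ≤ (1 + deriv v y) * (-(kap ^ 2 * (p2 a A x + A))) :=
      mul_le_mul_of_nonneg_left h22 (by linarith)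
    have h11 : pro v a A x = (pS A x + p2 a A x) / 2 - v y / 2 := rfl
    have h12 : kap ^ 2 * (y * deriv v y) ≤ kap ^ 2 * v y :=
      mul_le_mul_of_nonneg_left hv8 (sq_nonneg _)
    rw [h11]
    have h13 : y = pS A x - p2 a A x := hy
    rw [h13] at h12 ⊢
    rw [h13] at h9 h10
    nlinarith [h9, h10, h12]
  · -- the bound of the derivative
    intro x hx
    have hx' := hI hx
    have h1 := he hx'
    rw [hder hx']
    set y := pS A x - p2 a A x with hy
    have hv4 := abs_le.1 (v4 y)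
    have hb1 : |pS1 A x| ≤ 118 / 10000 * A * (|x| / (a ^ 2 - x ^ 2)) := by
      have h2 : |pS1 A x| ≤ 2 * A * kap ^ 2 * |x| := by
        unfold pS1
        rw [abs_neg, abs_mul, abs_of_pos (by positivity : 0 < 2 * A * kap)]
        calc 2 * A * kap * |Real.sin (kap * x)| ≤ 2 * A * kap * (kap * |x|) :=
              mul_le_mul_of_nonneg_left (hsin hx').2 (by positivity)
          _ = _ := by ring
      refine h2.trans ?_
      rw [mul_div_assoc', le_div_iff₀ h1]
      have h3 : a ^ 2 - x ^ 2 ≤ 1 / 4 := by nlinarith [sq_nonneg x]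
      have h4 : kap ^ 2 * (a ^ 2 - x ^ 2) ≤ 59 / 10000 := by nlinarith
      calc 2 * A * kap ^ 2 * |x| * (a ^ 2 - x ^ 2)
          = 2 * A * |x| * (kap ^ 2 * (a ^ 2 - x ^ 2)) := by ring
        _ ≤ 2 * A * |x| * (59 / 10000) := mul_le_mul_of_nonneg_left h4 (by positivity)
        _ = _ := by ring
    have hb2 : |p21 a A x| = p2 a A x * (|x| / (a ^ 2 - x ^ 2)) := by
      rw [hp21 hx', abs_neg, abs_div, abs_mul, abs_of_pos h1, abs_of_nonneg (hp2nn x),
        mul_div_assoc]
    have hq : 0 ≤ |x| / (a ^ 2 - x ^ 2) := by positivity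
    have hmain : |pro1 v a A x| ≤
        ((1 - deriv v y) / 2 * (118 / 10000 * A) + (1 + deriv v y) / 2 * p2 a A x) *
          (|x| / (a ^ 2 - x ^ 2)) := by
      have e : pro1 v a A x = (1 - deriv v y) / 2 * pS1 A x + (1 + deriv v y) / 2 * p21 a A x := by
        unfold pro1
        rw [← hy]; ring
      rw [e]
      refine (abs_add_le _ _).trans ?_
      rw [abs_mul, abs_mul, abs_of_nonneg (by linarith : 0 ≤ (1 - deriv v y) / 2),
        abs_of_nonneg (by linarith : 0 ≤ (1 + deriv v y) / 2), hb2]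
      have := mul_le_mul_of_nonneg_left hb1 (by linarith : 0 ≤ (1 - deriv v y) / 2)
      calc _ ≤ (1 - deriv v y) / 2 * (118 / 10000 * A * (|x| / (a ^ 2 - x ^ 2)))
            + (1 + deriv v y) / 2 * (p2 a A x * (|x| / (a ^ 2 - x ^ 2))) :=
            add_le_add_left this _
        _ = _ := by ring
    have hfin : (1 - deriv v y) / 2 * (118 / 10000 * A) + (1 + deriv v y) / 2 * p2 a A x ≤
        21 / 20 * pro v a A x := by
      rcases le_or_gt (A / 40) y with hc | hc
      · have e1 : deriv v y = 1 := v9 y hc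
        have e2 : pro v a A x = p2 a A x := by
          have : v y = y := by
            rw [v3 y (by rw [abs_of_nonneg (by linarith)]; exact hc), abs_of_nonneg (by linarith)]
          unfold pro
          rw [← hy, this, hy]; ring
        rw [e1, e2]
        have := hp2nn x
        linarith
      rcases le_or_gt y (-(A / 40)) with hc' | hc'
      · have e1 : deriv v y = -1 := v10 y hc'
        have e2 : pro v a A x = pS A x := by
          have : v y = -y := by
            rw [v3 y (by rw [abs_of_nonpos (by linarith)]; linarith), abs_of_nonpos (by linarith)]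
          unfold pro
          rw [← hy, this, hy]; ring
        rw [e1, e2]
        have := hS0ge hx'
        linarith
      · have h5 := hS0ge hx'
        have h6 : 969 / 1000 * A ≤ p2 a A x := by
          have : pS A x - p2 a A x < A / 40 := hc
          linarith
        have h7 : p2 a A x - 3 / 80 * A ≤ pro v a A x := by
          have h8 : p2 a A x - A / 40 ≤ min (pS A x) (p2 a A x) := by
            refine le_min ?_ (by linarith)
            have : -(A / 40) < pS A x - p2 a A x := hc'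
            linarith
          linarith [hge x]
        have h9 : (1 - deriv v y) / 2 * (118 / 10000 * A) ≤ (1 - deriv v y) / 2 * p2 a A x :=
          mul_le_mul_of_nonneg_left (by linarith) (by linarith)
        nlinarith
    calc |pro1 v a A x| ≤ _ := hmain
      _ ≤ 21 / 20 * pro v a A x * (|x| / (a ^ 2 - x ^ 2)) :=
        mul_le_mul_of_nonneg_right hfin hq
      _ = 21 / 20 * pro v a A x * |x| / (a ^ 2 - x ^ 2) := by ring
  · -- sign
    intro x hx
    have hx' := hI hx
    have h1 := he hx'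
    rw [hder hx']
    set y := pS A x - p2 a A x with hy
    have hv4 := abs_le.1 (v4 y)
    have e : pro1 v a A x = (1 - deriv v y) / 2 * pS1 A x + (1 + deriv v y) / 2 * p21 a A x := by
      unfold pro1
      rw [← hy]; ring
    have g1 : x * pS1 A x ≤ 0 := by
      unfold pS1
      have := (hsin hx').1
      have h2 : 0 ≤ 2 * A * kap * (x * Real.sin (kap * x)) := by positivity
      linarith
    have g2 : x * p21 a A x ≤ 0 := by
      rw [hp21 hx']
      have h2 : 0 ≤ p2 a A x * (x * x) / (a ^ 2 - x ^ 2) :=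
        div_nonneg (mul_nonneg (hp2nn x) (mul_self_nonneg x)) h1.le
      have h3 : x * -(p2 a A x * x / (a ^ 2 - x ^ 2)) = -(p2 a A x * (x * x) / (a ^ 2 - x ^ 2)) := by
        ring
      rw [h3]; linarith
    rw [e]
    have g3 : (1 - deriv v y) / 2 * (x * pS1 A x) ≤ 0 :=
      mul_nonpos_of_nonneg_of_nonpos (by linarith) g1
    have g4 : (1 + deriv v y) / 2 * (x * p21 a A x) ≤ 0 :=
      mul_nonpos_of_nonneg_of_nonpos (by linarith) g2
    calc _ = (1 - deriv v y) / 2 * (x * pS1 A x) + (1 + deriv v y) / 2 * (x * p21 a A x) := by ring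
      _ ≤ 0 := by linarith

end Pool.Agent.Helper7.AB
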